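import Mathlib

set_option autoImplicit false

namespace Run7.h269.Sel

/-- the pair `(x, y)` serves the odd number `c = 2 b + 1` -/
def Serves (a c : ℤ) : Prop :=
  ∃ x y k : ℤ, 0 < x ∧ 0 < y ∧ 0 < k ∧ (x ^ 2 - a * y ^ 2) ^ 2 = k ^ 2 ∧
    k * (c ^ 2 + 1) + 4 * (x * y) ^ 2 < 2 * c * (x ^ 2 + a * y ^ 2)

/-- states of the continued fraction algorithm of `√a` -/
structure State (a A x y k p : ℤ) : Prop where
  hx : 0 < x
  hy : 0 < y
  hk : 0 < k
  hp : 0 ≤ p
  hpA : p ≤ A
  nrm : (x ^ 2 - a * y ^ 2) ^ 2 = k ^ 2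
  d1 : k ∣ a - p ^ 2
  d2 : k ∣ x - p * y
  hxp : p * y ≤ x
  hkA : k ≤ A + p

lemma serves_of_sq {a c x y k : ℤ} (hx : 0 < x) (hy : 0 < y) (hk : 0 < k)
    (nrm : (x ^ 2 - a * y ^ 2) ^ 2 = k ^ 2)
    (h : (k * c - (x ^ 2 + a * y ^ 2)) ^ 2 < 4 * (x * y) ^ 2 * (a - k)) : Serves a c := by
  refine ⟨x, y, k, hx, hy, hk, nrm, ?_⟩
  have h1 : k * (2 * c * (x ^ 2 + a * y ^ 2) - (k * (c ^ 2 + 1) + 4 * (x * y) ^ 2)) =
      4 * (x * y) ^ 2 * (a - k) - (k * c - (x ^ 2 + a * y ^ 2)) ^ 2 := by
    have h2 : (x ^ 2 + a * y ^ 2) ^ 2 = 4 * a * (x * y) ^ 2 + k ^ 2 := by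
      rw [← nrm]; ring
    linear_combination h2
  have h3 : 0 < k * (2 * c * (x ^ 2 + a * y ^ 2) - (k * (c ^ 2 + 1) + 4 * (x * y) ^ 2)) := by
    rw [h1]; linarith
  have h4 := (mul_pos_iff_of_pos_left hk).1 h3
  linarith

lemma serves_of_abs {a c x y k z : ℤ} (hx : 0 < x) (hy : 0 < y) (hk : 0 < k)
    (nrm : (x ^ 2 - a * y ^ 2) ^ 2 = k ^ 2)
    (hz : z ^ 2 ≤ a - k)
    (h1 : -(2 * (x * y) * z) < k * c - (x ^ 2 + a * y ^ 2))
    (h2 : k * c - (x ^ 2 + a * y ^ 2) < 2 * (x * y) * z) : Serves a c := by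
  apply serves_of_sq hx hy hk nrm
  have h3 : (k * c - (x ^ 2 + a * y ^ 2)) ^ 2 < (2 * (x * y) * z) ^ 2 := by
    apply sq_lt_sq'
    · exact h1
    · exact h2
  calc (k * c - (x ^ 2 + a * y ^ 2)) ^ 2 < (2 * (x * y) * z) ^ 2 := h3
    _ = 4 * (x * y) ^ 2 * z ^ 2 := by ring
    _ ≤ 4 * (x * y) ^ 2 * (a - k) := mul_le_mul_of_nonneg_left hz (by positivity)

/-- one step -/
lemma step {a A c x y k p : ℤ} (hA : 0 ≤ A) (hA1 : A ^ 2 < a) (hA2 : a < (A + 1) ^ 2)
    (s : State a A x y k p) (hc : x ^ 2 + a * y ^ 2 - 2 * (x * y) * p < k * c) :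
    Serves a c ∨ (a = 2 ∧ ∃ m, m ^ 2 = 2 * c ^ 2 - 1) ∨
      ∃ x' y' k' q, State a A x' y' k' q ∧
        x' ^ 2 + a * y' ^ 2 - 2 * (x' * y') * q < k' * c ∧ q * y' < x' ∧ y ≤ y' ∧
        (p * y < x → y < y') := by
  obtain ⟨hx, hy, hk, hp, hpA, nrm, d1, d2, hxp, hkA⟩ := s
  set t := (A + p) / k with ht
  have ht1 : t * k ≤ A + p := Int.ediv_mul_le _ hk.ne'
  have ht2 : A + p < (t + 1) * k := Int.lt_ediv_add_one_mul_self _ hk
  have ht3 : 1 ≤ t := by
    rw [ht, Int.le_ediv_iff_mul_le hk]; linarith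
  set q := t * k - p with hq
  have hqA : q ≤ A := by linarith
  have hqk : A < q + k := by rw [hq]; nlinarith
  have hq0 : 0 ≤ q := by
    rcases le_or_gt p k with h | h
    · rw [hq]; nlinarith
    · linarith
  have hpa : p ^ 2 < a := lt_of_le_of_lt (by nlinarith) hA1
  have hqa : q ^ 2 < a := lt_of_le_of_lt (by nlinarith) hA1
  have hM : 0 < x * y := mul_pos hx hy
  -- divisibilities
  have e1 : k ∣ a - q ^ 2 := by
    have : a - q ^ 2 = (a - p ^ 2) - k * (t * (q - p)) := by rw [hq]; ring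
    rw [this]
    exact dvd_sub d1 (dvd_mul_right _ _)
  have e2 : k ∣ x + q * y := by
    have : x + q * y = (x - p * y) + k * (t * y) := by rw [hq]; ring
    rw [this]
    exact dvd_add d2 (dvd_mul_right _ _)
  obtain ⟨k', hk'⟩ := e1
  obtain ⟨y', hy'⟩ := e2
  have e3 : k ∣ q * x + a * y := by
    refine ⟨q * y' + k' * y, ?_⟩
    have : q * x + a * y = q * (x + q * y) + (a - q ^ 2) * y := by ring
    rw [this, hy', hk']; ring
  obtain ⟨x', hx'⟩ := e3
  have hk'0 : 0 < k' := by
    have : 0 < k * k' := by rw [← hk']; linarith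
    exact (mul_pos_iff_of_pos_left hk).1 this
  have hy'0 : 0 < y' := by
    have : 0 < k * y' := by rw [← hy']; nlinarith
    exact (mul_pos_iff_of_pos_left hk).1 this
  have hx'0 : 0 < x' := by
    have : 0 < k * x' := by
      rw [← hx']
      have : 0 < a := by nlinarith
      have h1 : 0 ≤ q * x := by positivity
      have h2 : 0 < a * y := by positivity
      linarith
    exact (mul_pos_iff_of_pos_left hk).1 this
  have hrel : x' - q * y' = k' * y := by
    have : k * (x' - q * y') = k * (k' * y) := by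
      have h1 : k * (x' - q * y') = (k * x') - q * (k * y') := by ring
      rw [h1, ← hx', ← hy']
      have h2 : q * x + a * y - q * (x + q * y) = (a - q ^ 2) * y := by ring
      rw [h2, hk']; ring
    exact mul_left_cancel₀ hk.ne' this
  have hN : k * (x' ^ 2 - a * y' ^ 2) = -(k' * (x ^ 2 - a * y ^ 2)) := by
    have : k * (k * (x' ^ 2 - a * y' ^ 2)) = k * (-(k' * (x ^ 2 - a * y ^ 2))) := by
      have h1 : k * (k * (x' ^ 2 - a * y' ^ 2)) = (k * x') ^ 2 - a * (k * y') ^ 2 := by ring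
      rw [h1, ← hx', ← hy']
      have h2 : (q * x + a * y) ^ 2 - a * (x + q * y) ^ 2 = -((a - q ^ 2) * (x ^ 2 - a * y ^ 2)) := by
        ring
      rw [h2, hk']; ring
    exact mul_left_cancel₀ hk.ne' this
  have nrm' : (x' ^ 2 - a * y' ^ 2) ^ 2 = k' ^ 2 := by
    have : k ^ 2 * (x' ^ 2 - a * y' ^ 2) ^ 2 = k ^ 2 * k' ^ 2 := by
      have h1 : k ^ 2 * (x' ^ 2 - a * y' ^ 2) ^ 2 = (k * (x' ^ 2 - a * y' ^ 2)) ^ 2 := by ring
      rw [h1, hN]
      have h2 : (-(k' * (x ^ 2 - a * y ^ 2))) ^ 2 = k' ^ 2 * (x ^ 2 - a * y ^ 2) ^ 2 := by ring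
      rw [h2, nrm]; ring
    exact mul_left_cancel₀ (by positivity) this
  have hD : k * (x' ^ 2 + a * y' ^ 2 - 2 * (x' * y') * q) =
      k' * (x ^ 2 + a * y ^ 2 + 2 * (x * y) * q) := by
    have : k * (k * (x' ^ 2 + a * y' ^ 2 - 2 * (x' * y') * q)) =
        k * (k' * (x ^ 2 + a * y ^ 2 + 2 * (x * y) * q)) := by
      have h1 : k * (k * (x' ^ 2 + a * y' ^ 2 - 2 * (x' * y') * q)) =
          (k * x') ^ 2 + a * (k * y') ^ 2 - 2 * ((k * x') * (k * y')) * q := by ring
      rw [h1, ← hx', ← hy']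
      have h2 : (q * x + a * y) ^ 2 + a * (x + q * y) ^ 2 -
          2 * ((q * x + a * y) * (x + q * y)) * q =
          (a - q ^ 2) * (x ^ 2 + a * y ^ 2 + 2 * (x * y) * q) := by ring
      rw [h2, hk']; ring
    exact mul_left_cancel₀ hk.ne' this
  have hpk : p ^ 2 ≤ a - k := by
    obtain ⟨r, hr⟩ := d1
    have : 0 < r := by
      have : 0 < k * r := by rw [← hr]; linarith
      exact (mul_pos_iff_of_pos_left hk).1 this
    nlinarith
  have hqk2 : q ^ 2 ≤ a - k := by nlinarith
  have hap : 0 < a - p ^ 2 := by linarith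
  have hM' : 0 < x' * y' := mul_pos hx'0 hy'0
  -- cases on the position of c
  rcases lt_trichotomy (k * c) (x ^ 2 + a * y ^ 2 + 2 * (x * y) * q) with h | h | h
  · left
    rcases le_or_gt p q with hpq | hpq
    · refine serves_of_abs hx hy hk nrm hqk2 ?_ (by linarith)
      have : 2 * (x * y) * p ≤ 2 * (x * y) * q := by
        apply mul_le_mul_of_nonneg_left hpq (by positivity)
      linarith
    · refine serves_of_abs hx hy hk nrm hpk (by linarith) ?_
      have : 2 * (x * y) * q ≤ 2 * (x * y) * p := by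
        apply mul_le_mul_of_nonneg_left hpq.le (by positivity)
      linarith
  · -- boundary
    rcases (show 1 ≤ k' from hk'0).lt_or_eq with h1 | h1
    · left
      apply serves_of_sq hx hy hk nrm
      have h2 : k * c - (x ^ 2 + a * y ^ 2) = 2 * (x * y) * q := by linarith
      rw [h2]
      have h3 : q ^ 2 < a - k := by nlinarith
      calc (2 * (x * y) * q) ^ 2 = 4 * (x * y) ^ 2 * q ^ 2 := by ring
        _ < 4 * (x * y) ^ 2 * (a - k) := mul_lt_mul_of_pos_left h3 (by positivity)
    · -- k' = 1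
      subst h1
      rw [mul_one] at hk'
      rw [one_mul] at hD
      rcases (show 1 ≤ k from hk).lt_or_eq with h2 | h2
      · left
        apply serves_of_sq hx'0 hy'0 one_pos nrm'
        have h3 : x' ^ 2 + a * y' ^ 2 - 2 * (x' * y') * q = c := by
          apply mul_left_cancel₀ hk.ne'
          rw [hD, h]
        have h4 : 1 * c - (x' ^ 2 + a * y' ^ 2) = -(2 * (x' * y') * q) := by linarith
        rw [h4]
        have h5 : q ^ 2 < a - 1 := by linarith
        calc (-(2 * (x' * y') * q)) ^ 2 = 4 * (x' * y') ^ 2 * q ^ 2 := by ring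
          _ < 4 * (x' * y') ^ 2 * (a - 1) := mul_lt_mul_of_pos_left h5 (by positivity)
      · -- k = 1, a = q ^ 2 + 1
        subst h2
        rw [one_mul] at h
        have ha : a = q ^ 2 + 1 := by linarith
        rcases lt_or_ge q 2 with h3 | h3
        · have h4 : q = 0 ∨ q = 1 := by omega
          rcases h4 with h4 | h4
          · exfalso
            rw [h4] at ha
            have : A = 0 := by nlinarith
            rw [this] at hA2
            linarith
          · right; left
            have ha2 : a = 2 := by rw [ha, h4]; norm_num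
            refine ⟨ha2, x ^ 2 + a * y ^ 2 + 4 * (x * y), ?_⟩
            rw [h, h4, ha2]
            rw [ha2] at nrm
            linear_combination -nrm
        · left
          have hB : 1 ≤ q - 1 := by linarith
          refine serves_of_abs (x := (q - 1) * x + a * y) (y := x + (q - 1) * y) (k := 2 * q)
            (z := q - 1) ?_ ?_ (by linarith) ?_ ?_ ?_ ?_
          · have : 0 < a := by nlinarith
            have h5 : 0 < a * y := by positivity
            have h6 : 0 < (q - 1) * x := by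
              apply mul_pos (by linarith) hx
            linarith
          · have h6 : 0 < (q - 1) * y := mul_pos (by linarith) hy
            linarith
          · have h5 : ((q - 1) * x + a * y) ^ 2 - a * (x + (q - 1) * y) ^ 2 =
              -((a - (q - 1) ^ 2) * (x ^ 2 - a * y ^ 2)) := by ring
            rw [h5]
            have h6 : (-((a - (q - 1) ^ 2) * (x ^ 2 - a * y ^ 2))) ^ 2 =
              (a - (q - 1) ^ 2) ^ 2 * (x ^ 2 - a * y ^ 2) ^ 2 := by ring
            rw [h6, nrm, ha]; ring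
          · rw [ha]; nlinarith
          · -- lower bound
            rw [h]
            have h5 : 2 * q * (x ^ 2 + a * y ^ 2 + 2 * (x * y) * q) -
                (((q - 1) * x + a * y) ^ 2 + a * (x + (q - 1) * y) ^ 2) +
                2 * (((q - 1) * x + a * y) * (x + (q - 1) * y)) * (q - 1) =
                2 * q * (2 * (x * y)) := by
              rw [ha]; ring
            have h6 : 0 < 2 * q * (2 * (x * y)) := by positivity
            linarith
          · rw [h]
            have h5 : 2 * (((q - 1) * x + a * y) * (x + (q - 1) * y)) * (q - 1) -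
                (2 * q * (x ^ 2 + a * y ^ 2 + 2 * (x * y) * q) -
                (((q - 1) * x + a * y) ^ 2 + a * (x + (q - 1) * y) ^ 2)) =
                (x ^ 2 + a * y ^ 2) * (4 * (q - 1) ^ 2) +
                2 * (x * y) * (4 * q ^ 3 - 8 * q ^ 2 + 6 * q - 4) := by
              rw [ha]; ring
            have h6 : 0 < 4 * (q - 1) ^ 2 := by nlinarith
            have h7 : 0 < 4 * q ^ 3 - 8 * q ^ 2 + 6 * q - 4 := by nlinarith [sq_nonneg (q - 2)]
            have h8 : 0 < x ^ 2 + a * y ^ 2 := by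
              have : 0 < a := by nlinarith
              positivity
            have h9 : 0 < (x ^ 2 + a * y ^ 2) * (4 * (q - 1) ^ 2) := mul_pos h8 h6
            have h10 : 0 < 2 * (x * y) * (4 * q ^ 3 - 8 * q ^ 2 + 6 * q - 4) :=
              mul_pos (by linarith) h7
            linarith
  · -- go on
    right; right
    refine ⟨x', y', k', q, ⟨hx'0, hy'0, hk'0, hq0, hqA, nrm', ?_, ?_, ?_, ?_⟩, ?_, ?_, ?_, ?_⟩
    · exact ⟨k, by rw [hk']; ring⟩
    · exact ⟨y, hrel⟩
    · have : 0 < k' * y := mul_pos hk'0 hy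
      linarith
    · by_contra hcon
      push Not at hcon
      have h1 : (A - q + 1) * (A + q + 1) ≤ k * k' := by
        apply mul_le_mul (by linarith) (by linarith) (by linarith) hk.le
      rw [← hk'] at h1
      nlinarith
    · have h1 : k' * (x ^ 2 + a * y ^ 2 + 2 * (x * y) * q) < k' * (k * c) :=
        mul_lt_mul_of_pos_left h hk'0
      rw [← hD] at h1
      have h2 : k' * (k * c) = k * (k' * c) := by ring
      rw [h2] at h1
      exact lt_of_mul_lt_mul_left h1 hk.le
    · have : 0 < k' * y := mul_pos hk'0 hy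
      linarith
    · -- y ≤ y'
      have h1 : k * y ≤ k * y' := by
        rw [← hy']
        have h2 : x + q * y = (x - p * y) + k * (t * y) := by rw [hq]; ring
        rw [h2]
        have h3 : y ≤ t * y := by nlinarith
        have h4 : k * y ≤ k * (t * y) := mul_le_mul_of_nonneg_left h3 hk.le
        linarith
      exact le_of_mul_le_mul_left h1 hk
    · intro hs
      have h1 : k * y < k * y' := by
        rw [← hy']
        have h2 : x + q * y = (x - p * y) + k * (t * y) := by rw [hq]; ring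
        rw [h2]
        have h3 : y ≤ t * y := by nlinarith
        have h4 : k * y ≤ k * (t * y) := mul_le_mul_of_nonneg_left h3 hk.le
        linarith
      exact lt_of_mul_lt_mul_left h1 hk.le

lemma run {a A c : ℤ} (hA : 0 ≤ A) (hA1 : A ^ 2 < a) (hA2 : a < (A + 1) ^ 2) :
    ∀ m : ℕ, ∀ x y k p : ℤ, State a A x y k p →
      x ^ 2 + a * y ^ 2 - 2 * (x * y) * p < k * c → p * y < x → c - y ≤ m →
      Serves a c ∨ (a = 2 ∧ ∃ m, m ^ 2 = 2 * c ^ 2 - 1) := by
  intro m
  induction m with
  | zero =>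
    intro x y k p s hc hs hm
    exfalso
    obtain ⟨r, hr⟩ := s.d1
    have hpa : p ^ 2 < a := lt_of_le_of_lt (by nlinarith [s.hp, s.hpA]) hA1
    have hk := s.hk
    have hy := s.hy
    have hr0 : 0 < r := by
      have : 0 < k * r := by rw [← hr]; linarith
      exact (mul_pos_iff_of_pos_left hk).1 this
    have h1 : x ^ 2 + a * y ^ 2 - 2 * (x * y) * p = (x - p * y) ^ 2 + k * (r * y ^ 2) := by
      have : a = p ^ 2 + k * r := by linarith
      rw [this]; ring
    rw [h1] at hc
    have h2 : k * (r * y ^ 2) < k * c := by nlinarith [sq_nonneg (x - p * y)]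
    have h3 : r * y ^ 2 < c := lt_of_mul_lt_mul_left h2 hk.le
    have h4 : y ≤ r * y ^ 2 := by nlinarith
    push_cast at hm
    linarith
  | succ m ih =>
    intro x y k p s hc hs hm
    rcases step hA hA1 hA2 s hc with h | h | ⟨x', y', k', q, s', hc', hs', _, hy'⟩
    · exact Or.inl h
    · exact Or.inr h
    · refine ih x' y' k' q s' hc' hs' ?_
      have := hy' hs
      push_cast at hm
      linarith

theorem serves {a A c : ℤ} (hA : 0 ≤ A) (hA1 : A ^ 2 < a) (hA2 : a < (A + 1) ^ 2)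
    (hc : 1 < c) (h0 : 1 ≤ A) :
    Serves a c ∨ (a = 2 ∧ ∃ m, m ^ 2 = 2 * c ^ 2 - 1) := by
  have s0 : State a A A 1 (a - A ^ 2) A := by
    refine ⟨by linarith, one_pos, by linarith, hA, le_rfl, by ring, dvd_rfl, by simp, by simp, ?_⟩
    nlinarith
  have hc0 : A ^ 2 + a * 1 ^ 2 - 2 * (A * 1) * A < (a - A ^ 2) * c := by
    nlinarith
  rcases step hA hA1 hA2 s0 hc0 with h | h | ⟨x', y', k', q, s', hc', hs', _, _⟩
  · exact Or.inl h
  · exact Or.inr h
  · exact run hA hA1 hA2 (c - y').toNat x' y' k' q s' hc' hs' (Int.self_le_toNat _)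

end Run7.h269.Sel
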