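import Pool.Agent.Run7.h269.Sel.Chain

set_option autoImplicit false

namespace Run7.h269.Sel

/-- multiplier -/
lemma exists_u (a b X k M2 : ℕ) (ha : 0 < a) (hX : 0 < X) (hXY : X * (X + k) = a * M2)
    (h : b ^ 2 * k + M2 < (2 * b + 1) * X) :
    ∃ u, a * b ^ 2 < u * X ∧ u * (X + k) < a * (b + 1) ^ 2 := by
  refine ⟨a * b ^ 2 / X + 1, ?_, ?_⟩
  · have := Nat.lt_mul_div_succ (a * b ^ 2) hX
    rw [mul_comm (a * b ^ 2 / X + 1) X]; exact this
  · have h1 : (a * b ^ 2 / X + 1) * X ≤ a * b ^ 2 + X := by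
      have := Nat.div_mul_le_self (a * b ^ 2) X
      rw [add_mul, one_mul]; omega
    have h2 : (a * b ^ 2 / X + 1) * (X + k) * X < a * (b + 1) ^ 2 * X := by
      calc (a * b ^ 2 / X + 1) * (X + k) * X = ((a * b ^ 2 / X + 1) * X) * (X + k) := by ring
        _ ≤ (a * b ^ 2 + X) * (X + k) := Nat.mul_le_mul_right _ h1
        _ = a * (b ^ 2 * X) + a * (b ^ 2 * k) + X * (X + k) := by ring
        _ = a * (b ^ 2 * X) + a * (b ^ 2 * k + M2) := by rw [hXY]; ring
        _ < a * (b ^ 2 * X) + a * ((2 * b + 1) * X) := by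
            apply Nat.add_lt_add_left
            exact Nat.mul_lt_mul_of_pos_left h ha
        _ = a * (b + 1) ^ 2 * X := by ring
    exact Nat.lt_of_mul_lt_mul_right h2

lemma isSquare_mul_iff {a b : ℕ} (hb : 0 < b) : IsSquare (a * b ^ 2) ↔ IsSquare a := by
  constructor
  · rintro ⟨m, hm⟩
    have h1 : b ^ 2 ∣ m ^ 2 := ⟨a, by rw [sq m, ← hm]; ring⟩
    have h2 : b ∣ m := (Nat.pow_dvd_pow_iff two_ne_zero).1 h1
    obtain ⟨c, rfl⟩ := h2
    refine ⟨c, ?_⟩
    have h3 : a * b ^ 2 = (c * c) * b ^ 2 := by rw [hm]; ring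
    exact Nat.eq_of_mul_eq_mul_right (by positivity) h3
  · rintro ⟨m, rfl⟩
    exact ⟨m * b, by ring⟩

/-- the core statement for `n = a b ^ 2` -/
lemma core (a b : ℕ) (ha : ¬ IsSquare a) (hb : 0 < b)
    (hex : ¬ (a = 2 ∧ IsSquare (2 * (2 * b + 1) ^ 2 - 1))) :
    ∃ r s : ℕ, a * b ^ 2 < r ∧ r < s ∧ s < a * (b + 1) ^ 2 ∧ IsSquare (a * b ^ 2 * r * s) := by
  have ha0 : 0 < a := by
    rcases Nat.eq_zero_or_pos a with h | h
    · exact absurd (h ▸ ⟨0, rfl⟩) ha
    · exact h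
  set A := Nat.sqrt a with hA
  have h1 : A * A ≤ a := Nat.sqrt_le a
  have h2 : a < (A + 1) * (A + 1) := Nat.lt_succ_sqrt a
  have h3 : A * A < a := lt_of_le_of_ne h1 (fun h => ha ⟨A, h.symm⟩)
  have hA1 : 1 ≤ A := Nat.sqrt_pos.2 ha0
  have key := serves (a := (a : ℤ)) (A := (A : ℤ)) (c := 2 * (b : ℤ) + 1) (by positivity)
    (by rw [sq]; exact_mod_cast h3) (by rw [sq]; exact_mod_cast h2)
    (by have : (0 : ℤ) < b := by exact_mod_cast hb
        linarith) (by exact_mod_cast hA1)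
  rcases key with h | ⟨h, m, hm⟩
  · obtain ⟨x, y, k, hx, hy, hk, nrm, hf⟩ := h
    obtain ⟨x, rfl⟩ := Int.eq_ofNat_of_zero_le hx.le
    obtain ⟨y, rfl⟩ := Int.eq_ofNat_of_zero_le hy.le
    obtain ⟨k, rfl⟩ := Int.eq_ofNat_of_zero_le hk.le
    have hx' : 0 < x := by exact_mod_cast hx
    have hy' : 0 < y := by exact_mod_cast hy
    have hk' : 0 < k := by exact_mod_cast hk
    rcases sq_eq_sq_iff_eq_or_eq_neg.1 nrm with h4 | h4
    · -- x^2 = a y^2 + k
      have h5 : x ^ 2 = a * y ^ 2 + k := by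
        have : ((x ^ 2 : ℕ) : ℤ) = ((a * y ^ 2 + k : ℕ) : ℤ) := by push_cast; linarith
        exact_mod_cast this
      have h6 : b ^ 2 * k + (x * y) ^ 2 < (2 * b + 1) * (a * y ^ 2) := by
        have : ((b : ℤ) ^ 2 * k + (x * y) ^ 2) < (2 * b + 1) * (a * y ^ 2) := by
          have e : (x : ℤ) ^ 2 = a * y ^ 2 + k := by exact_mod_cast h5
          have e2 : ((x : ℤ) * y) ^ 2 = (a * y ^ 2 + k) * y ^ 2 := by rw [mul_pow, e]
          rw [e2, e] at hf
          rw [e2]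
          nlinarith
        exact_mod_cast this
      obtain ⟨u, hu1, hu2⟩ := exists_u a b (a * y ^ 2) k ((x * y) ^ 2) ha0 (by positivity)
        (by rw [← h5]; ring) h6
      rw [← h5] at hu2
      have hu : 0 < u := by
        rcases Nat.eq_zero_or_pos u with h | h
        · subst h; simp at hu1
        · exact h
      refine ⟨u * (a * y ^ 2), u * x ^ 2, hu1, ?_, hu2, ?_⟩
      · apply Nat.mul_lt_mul_of_pos_left _ hu
        omega
      · exact ⟨a * b * u * x * y, by ring⟩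
    · have h5 : a * y ^ 2 = x ^ 2 + k := by
        have : ((a * y ^ 2 : ℕ) : ℤ) = ((x ^ 2 + k : ℕ) : ℤ) := by push_cast; linarith
        exact_mod_cast this
      have h6 : b ^ 2 * k + (x * y) ^ 2 < (2 * b + 1) * (x ^ 2) := by
        have : ((b : ℤ) ^ 2 * k + (x * y) ^ 2) < (2 * b + 1) * (x ^ 2) := by
          have e : (a : ℤ) * y ^ 2 = x ^ 2 + k := by exact_mod_cast h5
          rw [e] at hf
          nlinarith
        exact_mod_cast this
      obtain ⟨u, hu1, hu2⟩ := exists_u a b (x ^ 2) k ((x * y) ^ 2) ha0 (by positivity)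
        (by rw [← h5]; ring) h6
      rw [← h5] at hu2
      have hu : 0 < u := by
        rcases Nat.eq_zero_or_pos u with h | h
        · subst h; simp at hu1
        · exact h
      refine ⟨u * x ^ 2, u * (a * y ^ 2), hu1, ?_, hu2, ?_⟩
      · apply Nat.mul_lt_mul_of_pos_left _ hu
        omega
      · exact ⟨a * b * u * x * y, by ring⟩
  · exfalso
    apply hex
    have ha2 : a = 2 := by exact_mod_cast h
    refine ⟨ha2, m.natAbs, ?_⟩
    zify
    rw [Nat.cast_sub (by nlinarith)]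
    push_cast
    rw [← sq, sq_abs, hm]

theorem main : ∀ n : ℕ, ¬ IsSquare n →
      ∀ t : ℕ, n < t → IsSquare (n * t) →
        (∀ u : ℕ, n < u → u < t → ¬ IsSquare (n * u)) →
        (¬ ∃ b : ℕ, n = 2 * b ^ 2 ∧ IsSquare (2 * (2 * b + 1) ^ 2 - 1)) →
        ∃ r s : ℕ, n < r ∧ r < s ∧ s < t ∧ IsSquare (n * r * s) := by
  intro n hn t hnt hsq _ hex
  obtain ⟨a, b, hab, hsf⟩ := Nat.sq_mul_squarefree n
  have hb : 0 < b := by
    rcases Nat.eq_zero_or_pos b with h | h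
    · exfalso; apply hn; subst h; simp at hab; subst hab; exact ⟨0, rfl⟩
    · exact h
  have hab' : n = a * b ^ 2 := by rw [← hab]; ring
  subst hab'
  have ha : ¬ IsSquare a := fun h => hn ((isSquare_mul_iff hb).2 h)
  have ha0 : 0 < a := by
    rcases Nat.eq_zero_or_pos a with h | h
    · exact absurd (h ▸ ⟨0, rfl⟩) ha
    · exact h
  -- t ≥ a (b+1)^2
  have hat : IsSquare (a * t) := by
    have : a * b ^ 2 * t = (a * t) * b ^ 2 := by ring
    rw [this] at hsq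
    exact (isSquare_mul_iff hb).1 hsq
  obtain ⟨m, hm⟩ := hat
  have h1 : a ∣ m := by
    have : a ∣ m ^ 2 := ⟨t, by rw [sq, ← hm]⟩
    exact (Squarefree.dvd_pow_iff_dvd hsf two_ne_zero).1 this
  obtain ⟨c, rfl⟩ := h1
  have h2 : t = a * c ^ 2 := by
    apply Nat.eq_of_mul_eq_mul_left ha0
    rw [hm]; ring
  have h3 : b < c := by
    by_contra hcon
    push Not at hcon
    have : a * c ^ 2 ≤ a * b ^ 2 := Nat.mul_le_mul_left _ (Nat.pow_le_pow_left hcon 2)
    omega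
  have h4 : a * (b + 1) ^ 2 ≤ t := by
    rw [h2]
    exact Nat.mul_le_mul_left _ (Nat.pow_le_pow_left h3 2)
  obtain ⟨r, s, hr, hrs, hs, hsqq⟩ := core a b ha hb (by
    rintro ⟨rfl, h⟩
    exact hex ⟨b, rfl, h⟩)
  exact ⟨r, s, hr, hrs, lt_of_lt_of_le hs h4, hsqq⟩

end Run7.h269.Sel
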